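import Pool.Agent.H43.TC.Targets

/-! Module VTX of the tc board (MP_183c3b_co, helper43). -/

set_option autoImplicit false

namespace Pool.Agent.H47.TC

open Pool.Agent.H43.TC

theorem surj_lin {m : ℕ} (a : Fin 2 → ZMod m) (i : Fin 2) (h : a i = 1) :
    Function.Surjective (lin a) := by
  intro u
  refine ⟨Pi.single i u, ?_⟩
  show ∑ j, a j * (Pi.single i u : Fin 2 → ZMod m) j = u
  rw [Finset.sum_eq_single i]
  · rw [Pi.single_eq_same, h, one_mul]
  · intro j _ hj
    rw [Pi.single_eq_of_ne hj, mul_zero]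
  · intro h2
    exact absurd (Finset.mem_univ i) h2

/-- a colouring from a list -/
def col (m : ℕ) (l : List ℕ) (u : ZMod m) : Bool := decide (u.val ∈ l)

theorem use (hLIN : T_LIN) (m : ℕ) [NeZero m] (a : Fin 2 → ZMod m)
    (ha : Function.Surjective (lin a)) (f : ZMod m → Bool) (r WR WB : ℕ)
    (h1 : (Finset.univ.filter (fun u => f u = true)).card = r) (h2 : 2 * r ≤ m) (h3 : 0 < m - r)
    (h4 : ∑ u, walks a f true 3 u = WR) (h5 : ∑ u, walks a f false 3 u = WB) (x y : ℝ)
    (hx : x = ((WR : ℝ) / 64 + m - 2 * r) / (m - r)) (hy : y = ((WB : ℝ) / 64) / (m - r)) :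
    (x, y) ∈ region 2 3 := by
  have h := hLIN 2 m 3 0 a ha f r WR WB h1 h2 h3 h4 h5
  have e : (2 * ((2 : ℕ) : ℝ)) ^ 3 = 64 := by norm_num
  rw [e] at h
  rw [hx, hy]
  exact h

theorem vtx (hLIN : T_LIN) : T_VTX := by
  intro p hp
  simp only [verts, Set.mem_insert_iff, Set.mem_singleton_iff] at hp
  rcases hp with rfl | rfl | rfl | rfl | rfl | rfl | rfl | rfl | rfl
  · exact use hLIN 2 ![1, 1] (surj_lin _ 0 rfl) (col 2 [0]) 1 0 0 (by decide) (by norm_num)
      (by norm_num) (by decide +kernel) (by decide +kernel) _ _ (by norm_num) (by norm_num)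
  · exact use hLIN 24 ![1, 5] (surj_lin _ 0 rfl) (col 24 [2, 4, 6, 8, 10, 13, 16, 17, 19, 20, 23])
      11 8 32 (by decide +kernel) (by norm_num)
      (by norm_num) (by decide +kernel) (by decide +kernel) _ _ (by norm_num) (by norm_num)
  · exact use hLIN 7 ![1, 2] (surj_lin _ 0 rfl) (col 7 [0, 1, 4])
      3 2 16 (by decide +kernel) (by norm_num)
      (by norm_num) (by decide +kernel) (by decide +kernel) _ _ (by norm_num) (by norm_num)
  · exact use hLIN 3 ![1, 1] (surj_lin _ 0 rfl) (col 3 [0])
      1 0 16 (by decide +kernel) (by norm_num)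
      (by norm_num) (by decide +kernel) (by decide +kernel) _ _ (by norm_num) (by norm_num)
  · exact use hLIN 7 ![1, 2] (surj_lin _ 0 rfl) (col 7 [0, 3])
      2 0 74 (by decide +kernel) (by norm_num)
      (by norm_num) (by decide +kernel) (by decide +kernel) _ _ (by norm_num) (by norm_num)
  · exact use hLIN 4 ![2, 1] (surj_lin _ 1 rfl) (col 4 [0])
      1 0 60 (by decide +kernel) (by norm_num)
      (by norm_num) (by decide +kernel) (by decide +kernel) _ _ (by norm_num) (by norm_num)
  · exact use hLIN 5 ![1, 2] (surj_lin _ 0 rfl) (col 5 [0])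
      1 0 108 (by decide +kernel) (by norm_num)
      (by norm_num) (by decide +kernel) (by decide +kernel) _ _ (by norm_num) (by norm_num)
  · exact use hLIN 8 ![1, 3] (surj_lin _ 0 rfl) (col 8 [0])
      1 0 288 (by decide +kernel) (by norm_num)
      (by norm_num) (by decide +kernel) (by decide +kernel) _ _ (by norm_num) (by norm_num)
  · exact use hLIN 1 ![0, 0] (fun u => ⟨0, Subsingleton.elim _ _⟩) (col 1 [])
      0 0 64 (by decide +kernel) (by norm_num)
      (by norm_num) (by decide +kernel) (by decide +kernel) _ _ (by norm_num) (by norm_num)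

end Pool.Agent.H47.TC
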